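import Pool.Agent.TH70.AR.Run
set_option autoImplicit false

/-!
# On abstract cubes every deterministic pivot rule is exponential

`flip x i` is the neighbour of the vertex `x` of the `n`-cube in direction `i`, and `improving f x` the set
of directions `i` with `f x < f (flip x i)`. A rule sees all the vertices visited so far, with their
objective values and their sets of improving directions (`seen`, the current vertex first), and chooses an
improving direction. It may use all this information in any way: no bound on memory or computation. For each
such rule there is an objective function with exactly one local maximum on every face on which the rule
makes at least `2 ^ k` steps, whenever `k (k + 1) (3 k + 28) < n`; so no deterministic rule of this kind is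
polynomial, even on cubes.

Proof. An adversary answers the rule and keeps the answers consistent. The walk is cut into nested epochs,
each inside a face of the cube (the directions of an epoch of level `k` are a set `E`). All vertices that
are visited have few non-improving directions. An epoch of level `k + 1` consists of two epochs of level `k`
and a phase which wipes out what the rule has learnt: in this phase every vertex that is visited gets the
same `O(k)` non-improving directions, among them the most often chosen ones, and it ends when a direction
has been chosen (or has been left alone) such that a large part of the recorded vertices lies in the other
facet; the present facet is then declared a hypersink (all edges leaving it lead into it), so those records do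
not matter any more. After `O(k log)` such directions no record is left, and the next epoch starts on a face
about which nothing is known. At the end the answers are extended to an objective function by putting
objective functions on hypersinks (`AOF.stackOn`) and by one uniform reorientation of the directions
(`AOF.uniform`) where an answer shows a non-improving direction.
-/

namespace Pool.Agent.Results.MP_4d246d_lc.AllDeterministicRules

open Finset Pool.Agent.TH70.AR

/-- **Every deterministic pivot rule is exponential on abstract objective functions.** Let
`k (k + 1) (3 k + 28) < n`. A rule sees the list of triples (visited vertex, its objective value, its set of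
improving directions), the current one first, and names an improving direction. For every rule and every
start vertex `x₀` of the `n`-cube there is an injective objective function `f` with exactly one local maximum
on every face (so that increasing paths of at most `n` steps lead from every vertex to the maximum) such that
the rule, started at `x₀`, reaches the maximum after `L ≥ 2 ^ k` steps. -/
theorem result (n k : ℕ) (hn : k * (k + 1) * (3 * k + 28) < n)
    (rule : List ((Fin n → Bool) × ℕ × Finset (Fin n)) → Fin n)
    (hrule : ∀ (x : Fin n → Bool) (c : ℕ) (S : Finset (Fin n))
      (l : List ((Fin n → Bool) × ℕ × Finset (Fin n))), S.Nonempty → rule ((x, c, S) :: l) ∈ S)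
    (x₀ : Fin n → Bool) :
    ∃ (f : (Fin n → Bool) → ℕ) (L : ℕ) (w : ℕ → (Fin n → Bool)),
      Function.Injective f ∧
      (∀ (U : Finset (Fin n)) (x : Fin n → Bool), ∃! y : Fin n → Bool,
        (∀ i, i ∉ U → y i = x i) ∧ ∀ i ∈ U, f (flip y i) < f y) ∧
      (∀ x : Fin n → Bool, ∃ (m : ℕ) (v : ℕ → (Fin n → Bool)), m ≤ n ∧ v 0 = x ∧
        (∀ t < m, ∃ i ∈ improving f (v t), v (t + 1) = flip (v t) i) ∧
        improving f (v m) = ∅) ∧
      w 0 = x₀ ∧
      (∀ t < L, (improving f (w t)).Nonempty ∧ w (t + 1) = flip (w t) (rule (seen f w t))) ∧
      improving f (w L) = ∅ ∧ 2 ^ k ≤ L := by
  obtain ⟨f, h1, h2, L, w, h3, h4, h5, h6⟩ := slow hn rule hrule x₀
  exact ⟨f, L, w, h1, h2, short_path h2, h3, h4, h5, h6⟩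

end Pool.Agent.Results.MP_4d246d_lc.AllDeterministicRules
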