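import Pool.Agent.TH2.BO.Final
set_option autoImplicit false

/-!
# Randomised pivot rules with bounded odds are exponential, whatever they remember

A rule sees all vertices visited so far together with their sets of improving directions and chooses the
next improving direction at random; the only restriction is that of two improving directions neither is
more than `ρ` times as probable as the other. For every such rule there is an abstract objective function
on the `n`-cube on which it needs at least `2 ^ m` steps, up to probability `2 ^ (-m)`, where `m` is of
order `√(n / ρ)`. So no rule with odds at most `n ^ (1 - ε)` is polynomial on abstract objective functions;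
Random-Edge is the case `ρ = 1` without memory.

Proof: doubling. Given a slow cube for the base coordinates, the fibre over each base vertex `w` is a cube
with `k` coordinates and its own random order: the first one (in that order) may be switched off, and the
zeros after it may be switched on. The face in which all fibre coordinates are zero is a hypersink; there
the base is started again. The fibre coordinates reach zero during the first run of the base only with
probability exponentially small in `k / ρ`: to switch off many coordinates over one base vertex, the rule
must avoid the improving base directions many times, and after a base step the order is a fresh one, so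
the zeros are switched on again faster than new ones are made.
-/

namespace Pool.Agent.Results.MP_4d246d_lc.BoundedOdds

open Finset Pool.Agent.H454R3 Pool.Agent.TH2.BO

/-- Let `ρ ≥ 1`, `m ≥ 1` and `60 (1 + ρ) m ^ 2 ≤ n`. A rule gives, for every list of pairs (visited vertex,
its set of improving directions), the current one first, a probability distribution on the current set of
improving directions. If the odds between two improving directions are always at most `ρ`, then there are
an injective objective function `f` on the vertices of the `n`-cube with exactly one local maximum on every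
face (so that increasing paths of at most `n` steps lead from every vertex to the maximum) and a start
vertex `x₀` such that the rule reaches the maximum from `x₀` in fewer than `2 ^ m` steps with probability at
most `2 ^ (-m)`. -/
theorem result (ρ : ℝ) (hρ : 1 ≤ ρ) (n m : ℕ) (hm : 1 ≤ m) (hn : 60 * (1 + ρ) * m ^ 2 ≤ n)
    (rule : List ((Fin n → Bool) × Finset (Fin n)) → Fin n → ℝ)
    (h0 : ∀ l x S, ∀ i ∈ S, 0 ≤ rule ((x, S) :: l) i)
    (h1 : ∀ l x (S : Finset (Fin n)), S.Nonempty → ∑ i ∈ S, rule ((x, S) :: l) i = 1)
    (h2 : ∀ l x S, ∀ i ∈ S, ∀ j ∈ S, rule ((x, S) :: l) i ≤ ρ * rule ((x, S) :: l) j) :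
    ∃ (f : (Fin n → Bool) → ℕ) (x₀ : Fin n → Bool),
      Function.Injective f ∧
      (∀ (U : Finset (Fin n)) (x : Fin n → Bool), ∃! y : Fin n → Bool,
        (∀ i, i ∉ U → y i = x i) ∧ ∀ i ∈ U, f (flip y i) < f y) ∧
      (∀ x : Fin n → Bool, ∃ (L : ℕ) (w : ℕ → (Fin n → Bool)), L ≤ n ∧ w 0 = x ∧
        (∀ k < L, ∃ i ∈ improving f (w k), w (k + 1) = flip (w k) i) ∧
        improving f (w L) = ∅) ∧
      ∀ N < 2 ^ m, reach f rule N [] x₀ ≤ 1 / 2 ^ m := by
  obtain ⟨out, s, hAU, hs⟩ := exists_slow hρ hm hn (ruleProc rule h0 h1 h2) fun x => ([], x)
  obtain ⟨f, hinj, himp, hlt⟩ := hAU.inj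
  refine ⟨f, s, hinj, ?_, ?_, ?_⟩
  · intro U x
    obtain ⟨y, ⟨hy1, hy2⟩, hy⟩ := hAU.sink U x
    refine ⟨y, ⟨hy1, fun i hi => hlt y i (hy2 i hi)⟩, ?_⟩
    rintro z ⟨hz1, hz2⟩
    refine hy z ⟨hz1, fun i hi hzi => ?_⟩
    rw [← himp, improving, mem_filter] at hzi
    exact absurd hzi.2 (not_lt.2 (hz2 i hi).le)
  · intro x
    obtain ⟨L, w, h3, h4, h5, h6⟩ := hAU.path x
    refine ⟨L, w, h3, h4, fun k hk => ?_, by rw [himp]; exact h6⟩
    obtain ⟨i, hi, hw⟩ := h5 k hk
    exact ⟨i, by rw [himp]; exact hi, hw⟩
  · intro N hN
    rw [reach_eq rule h0 h1 h2 f out himp N [] s]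
    exact (hit_mono _ _ _ (by omega) _ _).trans (hs N)

end Pool.Agent.Results.MP_4d246d_lc.BoundedOdds
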