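import Pool.Agent.TH105.LW.Main

set_option autoImplicit false

/-!
# Every version of the simplex method is exponential on lattice polytopes in `[0,3]^n`

For all `k ≥ 3`, `s` and `n ≥ 5 s + 6` there are an `n`-dimensional polytope
`P = {x ≥ 0 : A x ≤ b}`, all of whose vertices lie in `{0, 1, …, k}^n`, an integral objective
function `c` with `|c j| ≤ (⌊k/3⌋ + 1)^n`, and a vertex `x 0` of `P` from which the simplex method
has no choice: `x 0` and all the vertices reached from it have exactly one improving edge (the
optimal vertex has none), and the resulting path reaches the optimum after `(⌊k/3⌋ + 1)^s - 1`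
pivots (`2^s - 1` for `k = 3`). So every pivot rule needs exponentially many pivots in the number
`n` of variables, although all vertices are integral of width at most `3`.

This is in contrast with the case `k ≤ 2`, where from every vertex some monotone path has at most
`n` (for `k = 1`) or `3 n` (for `k = 2`) steps, and with the graph diameter, which is at most `k n`
(Kleinschmidt, Onn). Whether the monotone diameter of lattice polytopes in `[0,k]^n` is bounded by a
polynomial in `n` and `k` was an open question (Black, Small shadows of lattice polytopes). The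
number `m` of rows of `A` is not bounded polynomially here.

The polytope is a Minkowski sum `R + Z`. The vertices of `R` are the vectors `p j`, `j < q^s`,
`q = ⌊k/3⌋ + 1`, of the digits in base `q` of `j (j + 1) / 2` and of `j`, which form a strictly
convex chain with respect to a plane of objective functions; `Z` is the convex hull of `0` and
`O(n)` vectors with entries between `-(q-1)` and `q-1`, and its normal cone at `0` is so thin around
a part of this plane that every functional in it is strictly unimodal along the chain.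
-/

namespace Pool.Agent.Results.MP_4d246d_lc.LatticeWidthThree

/-- The feasible set of the linear program `max c x`, `A x ≤ b`, `x ≥ 0`. -/
def feasible {m n : ℕ} (A : Fin m → Fin n → ℤ) (b : Fin m → ℤ) : Set (Fin n → ℝ) :=
  {x | (∀ j, 0 ≤ x j) ∧ ∀ i, ∑ j, (A i j : ℝ) * x j ≤ b i}

/-- The value `c x`. -/
def val {n : ℕ} (c : Fin n → ℤ) (x : Fin n → ℝ) : ℝ := ∑ j, (c j : ℝ) * x j

/-- A step of the simplex method on `P` from `x` to `y`: both are vertices of `P`, the segment
between them is an edge of `P` (it consists of the maximisers of some linear functional on `P`), and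
`c x < c y`. -/
def Pivot {n : ℕ} (P : Set (Fin n → ℝ)) (c : Fin n → ℤ) (x y : Fin n → ℝ) : Prop :=
  x ∈ P.extremePoints ℝ ∧ y ∈ P.extremePoints ℝ ∧ IsExposed ℝ P (segment ℝ x y) ∧ val c x < val c y

/-- **Every version of the simplex method is exponential on lattice polytopes in `[0,3]^n`.**
Here `T = (⌊k/3⌋ + 1)^s - 1`. The polytope `feasible A b` is the convex hull of points of
`{0, …, k}^n` and has interior points; `x 0` is a vertex; `x 0, …, x T` is a run of the simplex
method that ends in an optimal vertex; the step from `x i` to `x (i + 1)` is the only possible one;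
so every run from `x 0` follows this path, and if it ends in an optimal vertex then it has exactly
`T` steps. -/
theorem result (k n s : ℕ) (hk : 3 ≤ k) (hn : 5 * s + 6 ≤ n) :
    ∃ (m : ℕ) (A : Fin m → Fin n → ℤ) (b : Fin m → ℤ) (c : Fin n → ℤ) (x : ℕ → Fin n → ℤ),
      (∀ j, |c j| ≤ (k / 3 + 1 : ℕ) ^ n) ∧
      (∃ V : Finset (Fin n → ℤ), (∀ v ∈ V, ∀ j, 0 ≤ v j ∧ v j ≤ k) ∧
        feasible A b =
          convexHull ℝ ((fun (v : Fin n → ℤ) (j : Fin n) => (v j : ℝ)) '' (V : Set (Fin n → ℤ)))) ∧
      (interior (feasible A b)).Nonempty ∧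
      (fun j => (x 0 j : ℝ)) ∈ (feasible A b).extremePoints ℝ ∧
      (∀ i < (k / 3 + 1) ^ s - 1,
        Pivot (feasible A b) c (fun j => (x i j : ℝ)) (fun j => (x (i+1) j : ℝ))) ∧
      (∀ z ∈ feasible A b, val c z ≤ val c (fun j => (x ((k / 3 + 1) ^ s - 1) j : ℝ))) ∧
      (∀ i ≤ (k / 3 + 1) ^ s - 1, ∀ y, Pivot (feasible A b) c (fun j => (x i j : ℝ)) y →
        i < (k / 3 + 1) ^ s - 1 ∧ y = fun j => (x (i+1) j : ℝ)) ∧
      ∀ (N : ℕ) (y : ℕ → Fin n → ℝ), y 0 = (fun j => (x 0 j : ℝ)) →
        (∀ i < N, Pivot (feasible A b) c (y i) (y (i+1))) →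
        N ≤ (k / 3 + 1) ^ s - 1 ∧ (∀ i ≤ N, y i = fun j => (x i j : ℝ)) ∧
        ((∀ z ∈ feasible A b, val c z ≤ val c (y N)) → N = (k / 3 + 1) ^ s - 1) := by
  obtain ⟨m, A, b, c, x, h1, h2, h3, h4, h5, h6, h7⟩ := TH105.LW.main k n s hk hn
  refine ⟨m, A, b, c, x, h1, h2, h3, h4, h5, h7, h6, ?_⟩
  intro N y hy0 hy
  have key : ∀ i ≤ N, i ≤ (k / 3 + 1) ^ s - 1 ∧ y i = fun j => (x i j : ℝ) := by
    intro i
    induction i with
    | zero => intro _; exact ⟨Nat.zero_le _, hy0⟩
    | succ i ih =>
      intro hi
      obtain ⟨e1, e2⟩ := ih (by omega)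
      have e3 := hy i (by omega)
      rw [e2] at e3
      obtain ⟨e4, e5⟩ := h6 i e1 _ e3
      exact ⟨e4, e5⟩
  refine ⟨(key N le_rfl).1, fun i hi => (key i hi).2, fun hopt => ?_⟩
  by_contra hne
  have hlt : N < (k / 3 + 1) ^ s - 1 := lt_of_le_of_ne (key N le_rfl).1 hne
  have e1 := h5 N hlt
  have e2 := hopt _ e1.2.1.1
  rw [(key N le_rfl).2] at e2
  exact absurd e1.2.2.2 (not_lt.2 e2)

end Pool.Agent.Results.MP_4d246d_lc.LatticeWidthThree
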