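import Pool.Agent.TH821.VD.Adv
set_option autoImplicit false

/-!
# Pivot rules that are guided by objective values are exponential

The definitions `View`, `seen`, `ValueDriven`, `blind`, `LabelFree`, `WeightedImprovement` are in
`Pool/Agent/TH821/VD/Defs.lean`; `flip`, `improving`, `Combed`, `RandomEdge` are in
`Pool/Agent/H454R3/Defs.lean`.
-/

namespace Pool.Agent.Results.MP_4d246d_lc.ValueDrivenRules

open Finset Pool.Agent.H454R3 Pool.Agent.TH821.VD

/-- The objective function `f` is injective and has the set `S x` of improving directions at each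
vertex `x`; every face has a direction all of whose edges are oriented in the same way (so there is
one local maximum on every face, an increasing path of at most `n` steps from each vertex to the
maximum, and the expected number of steps of the rule that chooses a random improving direction is
at most `n (n + 1) / 2` from every vertex); and the rule `r` makes the steps from `w 0` to `w 1`,
from `w 1` to `w 2`, …, from `w (L - 1)` to `w L`. -/
def Fooled {n : ℕ} (S : (Fin n → Bool) → Finset (Fin n)) (w : ℕ → (Fin n → Bool)) (L : ℕ)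
    (r : List (View n) → Fin n) (f : (Fin n → Bool) → ℕ) : Prop :=
  Function.Injective f ∧ (∀ x, improving f x = S x) ∧ Combed f ∧
  (∀ (U : Finset (Fin n)) (x : Fin n → Bool), ∃! y : Fin n → Bool,
    (∀ i, i ∉ U → y i = x i) ∧ ∀ i ∈ U, f (H454R3.flip y i) < f y) ∧
  (∀ x : Fin n → Bool, ∃ (m : ℕ) (v : ℕ → (Fin n → Bool)), m ≤ n ∧ v 0 = x ∧
    (∀ k < m, ∃ i ∈ improving f (v k), v (k + 1) = H454R3.flip (v k) i) ∧
    improving f (v m) = ∅) ∧
  (∃ T : (Fin n → Bool) → ℝ, RandomEdge f T ∧ ∀ x, T x ≤ (n : ℝ) * (n + 1) / 2) ∧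
  ∀ k < L, r (seen f w k) ∈ improving f (w k) ∧
    w (k + 1) = H454R3.flip (w k) (r (seen f w k))

/-- **Deterministic rules that can be swayed by objective values are exponential, even with
unlimited memory and full knowledge of the orientation, and even where Random-Edge is quadratic.**
For every vertex `x₀` of the `n`-cube there are an orientation of the cube (with the set `S x` of
outgoing directions at `x`) and a path `w` from `x₀` to the sink with
`L ≥ 2 ^ (n / 2 + 1) - 2` steps such that for each value-driven rule `r` (which sees the current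
vertex and all earlier ones, their objective values and those of all their neighbours, and which
may be designed for this orientation) there is an objective function with this orientation on
which the rule walks along the whole path `w`. In particular this holds for all label-free rules,
with an objective function below `4 ^ (n + 1) + 1`, and for all rules which maximise the
improvement times a positive weight. -/
theorem result (n : ℕ) (x₀ : Fin n → Bool) :
    ∃ (S : (Fin n → Bool) → Finset (Fin n)) (w : ℕ → (Fin n → Bool)) (L : ℕ),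
      w 0 = x₀ ∧ S (w L) = ∅ ∧ (2 : ℝ) ^ ((n : ℝ) / 2 + 1) ≤ L + 2 ∧
      ∀ r : List (View n) → Fin n,
        (ValueDriven r → ∃ f : (Fin n → Bool) → ℕ, Fooled S w L r f) ∧
        (LabelFree r → ∃ f : (Fin n → Bool) → ℕ, Fooled S w L r f ∧ ∀ x, f x ≤ 4 ^ (n + 1)) ∧
        (WeightedImprovement r → ValueDriven r) := by
  classical
  obtain ⟨τ, T, w', h', hT⟩ := exists_lay n
  obtain ⟨e, he⟩ : ∃ e, tr e (w' 0) = x₀ := ⟨tr (w' 0) x₀, by rw [tr_comm, tr_tr]⟩
  have h := h'.trans e
  set τ₁ : (Fin n → Bool) → ℕ := fun x => τ (tr e x) with hτ₁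
  set w : ℕ → Fin n → Bool := fun k => tr e (w' k) with hw
  have hTn : T < 2 ^ n := by
    have hinj : Function.Injective fun k : Fin (T + 1) => w k := by
      intro a b hab
      have h1 := h.lay a (by omega)
      have h2 := h.lay b (by omega)
      have h3 : w a = w b := hab
      rw [h3, h2] at h1
      exact Fin.ext h1.symm
    have := Fintype.card_le_of_injective _ hinj
    rw [Fintype.card_fin, Fintype.card_fun, Fintype.card_bool, Fintype.card_fin] at this
    omega
  have hsink : (univ.filter fun i => τ₁ (w T) < τ₁ (H454R3.flip (w T) i)) = ∅ := by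
    apply filter_eq_empty_iff.2
    intro i _
    rw [h.lay T le_rfl]
    exact not_lt.2 (h.le _)
  refine ⟨fun x => univ.filter fun i => τ₁ x < τ₁ (H454R3.flip x i), w, T, he, hsink, ?_, ?_⟩
  · exact hT
  intro r
  have hd : ∃ d : ℕ → Fin n, ∀ k < T, w (k + 1) = H454R3.flip (w k) (d k) := by
    refine ⟨fun k => if hk : k < T then (h.path k hk).choose else r [], fun k hk => ?_⟩
    have h1 : (if hk : k < T then (h.path k hk).choose else r []) = (h.path k hk).choose :=
      dif_pos hk
    show w (k + 1) = H454R3.flip (w k) (if hk : k < T then (h.path k hk).choose else r [])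
    rw [h1]
    exact (h.path k hk).choose_spec
  obtain ⟨d, hd⟩ := hd
  have fin : ∀ f : (Fin n → Bool) → ℕ, Function.Injective f →
      (∀ x y, τ₁ x < τ₁ y → f x < f y) → (∀ k < T, r (seen f w k) = d k) →
      Fooled (fun x => univ.filter fun i => τ₁ x < τ₁ (H454R3.flip x i)) w T r f := by
    intro f h1 h2 h3
    have hc := combed_of h h2
    obtain ⟨c1, c2, c3⟩ := hc.all h1
    refine ⟨h1, fun x => improving_eq h h2 x, hc, c1, c2, c3, fun k hk => ?_⟩
    rw [h3 k hk]
    refine ⟨?_, hd k hk⟩
    rw [improving_eq h h2, mem_filter]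
    refine ⟨mem_univ _, ?_⟩
    rw [← hd k hk, h.lay k hk.le, h.lay (k + 1) (by omega)]
    omega
  refine ⟨fun hr => ?_, fun hr => ?_, weighted_driven⟩
  · have hr' : Driven (fun _ _ => True) r := by
      intro h x a g S y M h1 h2 h3
      obtain ⟨v, g1, g2, g3, g4⟩ := hr h x a g S y M h1 h2 h3
      exact ⟨v, g1, fun i hi => ⟨g2 i hi, trivial⟩, g3, g4⟩
    obtain ⟨f, h1, h2, h3, _⟩ := follow h hd hr'
    exact ⟨f, fin f h1 h2 h3⟩
  · obtain ⟨f, h1, h2, h3, h4⟩ := follow h hd (labelFree_driven hr)
    refine ⟨f, fin f h1 h2 h3, fun x => (h4 (fun M v hv => hv) x).trans ?_⟩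
    have h5 : n < 2 ^ n := Nat.lt_two_pow_self
    have h6 : T * (n + 1 + 2 ^ n) ≤ (2 ^ n - 1) * (n + 1 + 2 ^ n) :=
      Nat.mul_le_mul_right _ (by omega)
    have h7 : (2 ^ n - 1) * (n + 1 + 2 ^ n) ≤ (2 ^ n - 1) * (2 ^ n * 3) :=
      Nat.mul_le_mul_left _ (by omega)
    have h8 : (4 : ℕ) ^ (n + 1) = 2 ^ n * (2 ^ n * 4) := by
      rw [pow_succ, show (4 : ℕ) = 2 * 2 by norm_num, mul_pow]
      ring
    have h9 : (2 ^ n - 1) * (2 ^ n * 3) ≤ 2 ^ n * (2 ^ n * 3) := Nat.mul_le_mul_right _ (by omega)
    have h10 : 2 ^ n * (2 ^ n * 3) + 2 ^ n ≤ 2 ^ n * (2 ^ n * 4) := by nlinarith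
    omega

end Pool.Agent.Results.MP_4d246d_lc.ValueDrivenRules
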